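import Mathlib
import Pool.Agent.Helper11.Frobenius

/-!
# A characterisation of the Frobenius endomorphism

An endomorphism `F` of a scheme is the `q`-Frobenius endomorphism if it acts on the `R`-valued points,
for all rings `R` for which `r ↦ r ^ q` is a ring homomorphism, through `r ↦ r ^ q`.
-/

universe u

open CategoryTheory AlgebraicGeometry

namespace Pool.Agent.Helper30.CR

/-- `F` is the `q`-Frobenius endomorphism of the scheme `X`: `F ∘ a = a ∘ Spec φ` for all rings `R`
on which `φ(r) = r ^ q` is a ring homomorphism, and all `R`-valued points `a` of `X`. -/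
def IsFrobenius (q : ℕ) {X : Scheme.{u}} (F : X ⟶ X) : Prop :=
  ∀ (R : Type u) [CommRing R] (φ : R →+* R) (a : Spec (CommRingCat.of R) ⟶ X),
    (∀ r, φ r = r ^ q) → a ≫ F = Spec.map (CommRingCat.ofHom φ) ≫ a

/-- Frobenius morphisms commute with morphisms. -/
theorem frobScheme_comp (q : ℕ) {X Y : Scheme.{u}}
    (hX : ∀ U : X.Opens, q ≠ 0 ∧ ∀ a b : Γ(X, U), (a + b) ^ q = a ^ q + b ^ q)
    (hY : ∀ U : Y.Opens, q ≠ 0 ∧ ∀ a b : Γ(Y, U), (a + b) ^ q = a ^ q + b ^ q) (f : X ⟶ Y) :
    Helper11.frobScheme q X hX ≫ f = f ≫ Helper11.frobScheme q Y hY := by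
  refine Scheme.Hom.ext rfl fun U => ?_
  rw [Scheme.Hom.comp_app, Scheme.Hom.comp_app]
  have h1 : ∀ (V : X.Opens) (h : V = V) (t : Γ(X, V)),
      (X.presheaf.map (eqToHom h).op).hom t = t := by
    intro V h t
    rw [eqToHom_refl, op_id, CategoryTheory.Functor.map_id]
    rfl
  ext s
  refine (h1 _ rfl _).trans ?_
  change (f.app U s) ^ q = f.app U (s ^ q)
  rw [map_pow]

/-- The Frobenius morphism of the spectrum of a ring. -/
theorem frobScheme_spec (q : ℕ) {R : Type u} [CommRing R] (φ : R →+* R) (hφ : ∀ r, φ r = r ^ q)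
    (hS : ∀ U : (Spec (CommRingCat.of R)).Opens, q ≠ 0 ∧
      ∀ a b : Γ(Spec (CommRingCat.of R), U), (a + b) ^ q = a ^ q + b ^ q) :
    Helper11.frobScheme q (Spec (CommRingCat.of R)) hS = Spec.map (CommRingCat.ofHom φ) := by
  apply ext_of_isAffine
  ext s
  obtain ⟨r, rfl⟩ :=
    (Scheme.ΓSpecIso (CommRingCat.of R)).commRingCatIsoToRingEquiv.symm.surjective s
  have h1 := ConcreteCategory.congr_hom
    (Scheme.ΓSpecIso_inv_naturality (CommRingCat.ofHom φ)) r
  refine Eq.trans ?_ h1
  change ((Scheme.ΓSpecIso (CommRingCat.of R)).inv.hom r) ^ q =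
    (Scheme.ΓSpecIso (CommRingCat.of R)).inv.hom (φ r)
  rw [hφ, map_pow]

variable {k : Type u} [Field k] [Finite k]

theorem isFrobenius_iff (X : Helper10.SmProjVar k) (F : X.toOver ⟶ X.toOver) :
    IsFrobenius (Nat.card k) F.left ↔ F = Helper11.frob X := by
  have hadd : ∀ {S : Scheme.{u}} (a : S ⟶ X.toOver.left) (U : S.Opens), Nat.card k ≠ 0 ∧
      ∀ x y : Γ(S, U), (x + y) ^ Nat.card k = x ^ Nat.card k + y ^ Nat.card k :=
    fun a U => Helper11.pow_card_add (Over.mk (a ≫ X.toOver.hom)) U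
  constructor
  · intro h
    ext1
    refine X.toOver.left.affineCover.hom_ext _ _ fun i => ?_
    let S : Scheme.{u} := X.toOver.left.affineCover.X i
    let f : S ⟶ X.toOver.left := X.toOver.left.affineCover.f i
    have : IsAffine S := inferInstanceAs (IsAffine (X.toOver.left.affineCover.X i))
    let R : Type u := Γ(S, ⊤)
    let φ : R →+* R := Helper11.frobHom (Nat.card k) R (hadd f ⊤)
    let a : Spec (CommRingCat.of R) ⟶ X.toOver.left := S.isoSpec.inv ≫ f
    have h1 := h R φ a fun r => rfl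
    rw [← frobScheme_spec (Nat.card k) φ (fun r => rfl) (hadd a),
      frobScheme_comp _ (hadd a) (Helper11.pow_card_add X.toOver)] at h1
    have h2 : S.isoSpec.inv ≫ f ≫ F.left = S.isoSpec.inv ≫ f ≫
        Helper11.frobScheme (Nat.card k) X.toOver.left (Helper11.pow_card_add X.toOver) := by
      rw [← Category.assoc, ← Category.assoc]
      exact h1
    exact (cancel_epi S.isoSpec.inv).1 h2
  · rintro rfl R _ φ a hφ
    rw [← frobScheme_spec (Nat.card k) φ hφ (hadd a)]
    exact (frobScheme_comp _ (hadd a) (Helper11.pow_card_add X.toOver) a).symm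

end Pool.Agent.Helper30.CR
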