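import Mathlib
import Pool.Agent.Helper30.CR.Frob
import Pool.Agent.Helper59.ZP.QFinal
import Pool.Agent.Helper4.HL.UniP2

/-!
# The 51 percent Tate conjecture over a finite field: proof

The theorem with the definitions of the hand-in, deduced from the laws of the files on systems of
classes.
-/

universe u v w

open CategoryTheory Filter Topology AlgebraicGeometry

open Pool.Agent.Helper10 Pool.Agent.Helper10.PR Pool.Agent.Helper11 Pool.Agent.Helper11.ZQ
  SmProjVar Pool.Agent.Helper59.ZO Pool.Agent.Helper59.ZP

namespace Pool.Agent.Helper30.CR.HT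

variable {k : Type u} [Field k] {K : Type v} [Field K]

/-- The span of the Tate classes. -/
def tateClasses (W : CohomologyData.{u, v, w} k K) (Y : SmProjVar k) : Submodule K (W.H Y) :=
  Submodule.span K {u : W.H Y | ∃ (j N : ℕ) (F : Y.toOver ⟶ Y.toOver),
    IsFrobenius (Nat.card k) F.left ∧ u ∈ W.gr Y (2 * j) ∧
      (fun y => W.pull F y - (Nat.card k : K) ^ j • y)^[N] u = 0}

/-- The dimension of the span of the classes of algebraic cycles. -/
noncomputable def cycRank (W : CohomologyData.{u, v, w} k K) (Y : SmProjVar k) : ℕ :=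
  Module.finrank K (W.algClasses Y)

/-- The Frobenius endomorphism acts semisimply on `H(Y)`. -/
def IsFrobeniusSemisimple (W : CohomologyData.{u, v, w} k K) (Y : SmProjVar k) : Prop :=
  ∀ (F : Y.toOver ⟶ Y.toOver) (φ : Module.End K (W.H Y)),
    IsFrobenius (Nat.card k) F.left → (∀ y, φ y = W.pull F y) → φ.IsSemisimple

theorem tateClasses_eq [Finite k] (W : CohomologyData.{u, v, w} k K) (Y : SmProjVar k) :
    tateClasses W Y = Pool.Agent.Helper59.ZP.tateClasses W Y := by
  refine congrArg (Submodule.span K) (Set.ext fun u => ?_)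
  constructor
  · rintro ⟨j, N, F, hF, hu, hN⟩
    have h1 := (isFrobenius_iff Y F).1 hF
    subst h1
    exact ⟨j, hu, N, hN⟩
  · rintro ⟨j, hu, N, hN⟩
    exact ⟨j, N, frob Y, (isFrobenius_iff Y _).2 rfl, hu, hN⟩

theorem isFrobeniusSemisimple_iff [Finite k] (W : CohomologyData.{u, v, w} k K) (Y : SmProjVar k) :
    IsFrobeniusSemisimple W Y ↔ Pool.Agent.Helper59.ZP.IsFrobeniusSemisimple W Y := by
  constructor
  · intro h φ hφ
    exact h (frob Y) φ ((isFrobenius_iff Y _).2 rfl) hφ
  · intro h F φ hF hφ
    have h1 := (isFrobenius_iff Y F).1 hF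
    subst h1
    exact h φ hφ

theorem main :
    -- (1) all varieties over `k`
    (∀ (k : Type u) [Field k] [Finite k] (K : Type v) [Field K] [CharZero K]
      (W : WeilCohomology.{u, v, w} k K) (ε : ℝ), 0 < ε →
        (∀ Y, (1 / 2 + ε) * Module.finrank K (tateClasses W.toCohomologyData Y) ≤
          cycRank W.toCohomologyData Y) →
          ∀ Y, tateClasses W.toCohomologyData Y = W.algClasses Y ∧ W.StandardD Y ∧
            IsFrobeniusSemisimple W.toCohomologyData Y) ∧
    -- (2) one power is enough
    (∀ b : ℕ, ∃ C t : ℝ, 0 < t ∧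
      ∀ (k : Type u) [Field k] [Finite k] (K : Type v) [Field K] [CharZero K]
        (W : WeilCohomology.{u, v, w} k K) (X : SmProjVar k), Module.finrank K (W.H X) ≤ b →
          ∀ m : ℕ, (1 / 2 + C / ((m : ℝ) + 2) ^ t) *
            Module.finrank K (tateClasses W.toCohomologyData (X.selfProd m)) <
              cycRank W.toCohomologyData (X.selfProd m) →
            tateClasses W.toCohomologyData X = W.algClasses X ∧ W.StandardD X) := by
  refine ⟨?_, fun b => ?_⟩
  · intro k _ _ K _ _ W ε hε h
    have hT := (tate_global_law W).1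
    have hG := (global_law_power (fun b => Pool.Agent.Helper4.HL.polyRate2 b 3) hT).2
      ⟨fun _ => ε, slowerThanPowers_const hε, fun Y => by
        have h1 := h Y
        rw [tateClasses_eq] at h1
        exact h1⟩
    intro Y
    rw [tateClasses_eq]
    refine ⟨le_antisymm (hG Y).2 (hT.alg_le Y), (hG Y).1, (isFrobeniusSemisimple_iff W.toCohomologyData Y).2 ?_⟩
    refine (tate_global_law W).2 Y ?_ 0
    intro h0
    have h1 : ∀ m, density W.toCohomologyData Y (tateSystem W.toCohomologyData Y) m = 1 := by
      intro m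
      have hV : IsSystem W.toCohomologyData Y (tateSystem W.toCohomologyData Y) :=
        ⟨fun n => hT.alg_le _, fun m n f hf u hu => hT.map_mem _ _ f hf u hu⟩
      have h3 := sys_pos hV m
      have h4 : tateSystem W.toCohomologyData Y m = W.algClasses (Y.selfProd m) :=
        le_antisymm (hG _).2 (hT.alg_le _)
      have h5 := numCycRank_eq_of_standardD W (hG (Y.selfProd m)).1
      have h6 : Pool.Agent.Helper59.ZP.cycRank W.toCohomologyData (Y.selfProd m) =
          Module.finrank K (tateSystem W.toCohomologyData Y m) := by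
        rw [h4]
        rfl
      unfold density
      rw [h5, h6]
      exact div_self h3.ne'
    have h2 : Tendsto (fun _ : ℕ => (1 : ℝ)) atTop (𝓝 0) := by
      rwa [funext h1] at h0
    exact one_ne_zero (tendsto_nhds_unique tendsto_const_nhds h2)
  · obtain ⟨C, t, -, ht, h⟩ := Pool.Agent.Helper4.HL.one_power_p2.{u, v, w} b 0
    refine ⟨C, t, ht, fun k _ _ K _ _ W X hX m hm => ?_⟩
    rw [tateClasses_eq] at hm ⊢
    have hT := (tate_global_law W).1
    have hV : IsSystem W.toCohomologyData X (tateSystem W.toCohomologyData X) :=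
      ⟨fun n => hT.alg_le _, fun m n f hf u hu => hT.map_mem _ _ f hf u hu⟩
    have h2 := (h k K W X hX _ hV m).2 (fun u hu huv => hT.nondegenerate _ u hu huv) hm 0 le_rfl
    exact ⟨le_antisymm h2.2 (hT.alg_le _), h2.1⟩

end Pool.Agent.Helper30.CR.HT
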